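import Mathlib
import Pool.Agent.H6.LE.Defs

set_option autoImplicit false

/-!
# THEOREM LP (bounded depth lines over parities of any length, random 3-CNFs): definitions (think 1973)

The atoms of the formulas are finite sets `S` of variables, the value of the atom `S` at `x` is the parity of `x` on `S`
(`pv x S`). `sz F`: the length, the sum of the sizes of the atoms over all occurrences (at least one for each occurrence).
`fs F`: the variables of `F`. From LD, LE (`Pool.H6.LD`) the following are used as they are: `alt`, `cj`, `dj`, `fv` (the set of the atoms), `Pc`, `ps`,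
`evp`, `om`, and for the states `Wld`, `Tst`, `Hit`, `wt`, `GT`, `HitAll`, `SubT`, `sm`, `XCon`, `nb`, `Bls`, `Tch`.

Atoms with more than `k0` variables are long; a commitment `c` gives values to the long atoms. `Lt W`: locally true in the
world `W`. `Tr W c k0 thr D x F b i`: truth at the state `D x`: short atoms and small blocks (length less than `thr`) have to be locally true, a long atom `S`
has the value `c S`. `Cw`: the world `W` is contained in the world `Con` and respects the commitments to the sets in `G`.
`XCc`: the world of a system of equations with commitments. The weights `wq`, `lq`, `Fewq` are those of LE with the length in place of the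
number of occurrences.

`Crt`, `Kll`: certificates. Two worlds: from truth in the world `W` (any `W` contained in `Con`, any commitment) to truth
in the world `Con` (with the same values of the long atoms), which does not depend on the other commitments.
-/

namespace Pool.H86.LP

open Finset Classical Pool.Agent.H3.Frg Pool.Agent.H3.Frg2 Pool.Agent.H3.Frg4 Pool.Agent.H55.QT Pool.H6.LD

/-- The value of the atom `S`: the parity of `x` on `S`. -/
noncomputable def pv {n : ℕ} (x : Fin n → Bool) (S : Finset (Fin n)) : Bool := decide (sm x S = 1)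

/-- The length of a formula. -/
def sz {n : ℕ} : Fm (Finset (Fin n)) → ℕ
  | .var S => max 1 S.card
  | .neg A => sz A
  | .imp A B => sz A + sz B

/-- The variables of a formula. -/
noncomputable def fs {n : ℕ} : Fm (Finset (Fin n)) → Finset (Fin n)
  | .var S => S
  | .neg A => fs A
  | .imp A B => fs A ∪ fs B

section world

variable {n : ℕ} (W : Finset (Fin n) → (Fin n → Bool) → Prop)

/-- Locally true. -/
def Lt (D : Finset (Fin n)) (x : Fin n → Bool) (F : Fm (Finset (Fin n))) (b : Bool) : Prop :=
  ∀ y, (∀ v ∈ D, y v = x v) → W (D ∪ fs F) y → F.eval (pv y) = b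

/-- Truth at a state. -/
def Tr (c : Finset (Fin n) → Bool) (k0 : ℕ) (thr : ℕ → ℕ) (D : Finset (Fin n)) (x : Fin n → Bool) :
    Fm (Finset (Fin n)) → Bool → Bool → Prop
  | .var S, b, _ => if S.card ≤ k0 then Lt W D x (.var S) b else c S = b
  | .neg A, b, i => Tr c k0 thr D x A (!b) i
  | .imp A B, false, _ => Tr c k0 thr D x A true false ∧ Tr c k0 thr D x B false false
  | .imp A B, true, i =>
      if i = false ∧ sz (Fm.imp A B) < thr (alt (Fm.imp A B) true) then
        Lt W D x (.imp A B) true
      else Tr c k0 thr D x A false true ∨ Tr c k0 thr D x B true true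

/-- All signed formulas of the list are true. -/
def TrL (c : Finset (Fin n) → Bool) (k0 : ℕ) (thr : ℕ → ℕ) (D : Finset (Fin n)) (x : Fin n → Bool)
    (l : List (Fm (Finset (Fin n)) × Bool)) : Prop :=
  ∀ p ∈ l, Tr W c k0 thr D x p.1 p.2 false

end world

/-- The parity set of a family of sets. -/
noncomputable def pr {n : ℕ} (I : Finset (Finset (Fin n))) : Finset (Fin n) :=
  univ.filter fun v => Odd (I.filter fun S => v ∈ S).card

/-- `W` is a world contained in `Con` in which the sets in `G` have the parities `c`. -/
structure Cw {n : ℕ} (Con W : Finset (Fin n) → (Fin n → Bool) → Prop) (K : ℕ) (G : Finset (Finset (Fin n)))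
    (c : Finset (Fin n) → Bool) : Prop where
  wld : Wld W K
  le : ∀ D x, W D x → Con D x
  cm : ∀ I ⊆ G, ∀ D x, pr I ⊆ D → W D x → sm x (pr I) = sm c I

/-- The world of a system of linear equations with supports `B j` and right sides `b j`, with the commitments `c` to the sets in `G`. -/
def XCc {n m : ℕ} (B : Fin m → Finset (Fin n)) (b : Fin m → Bool) (r : ℕ) (G : Finset (Finset (Fin n)))
    (c : Finset (Fin n) → Bool) (D : Finset (Fin n)) (x : Fin n → Bool) : Prop :=
  ∀ (J : Finset (Fin m)) (I : Finset (Finset (Fin n))), J.card ≤ r → I ⊆ G →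
    symmDiff (par B J) (pr I) ⊆ D → sm x (symmDiff (par B J) (pr I)) = sm b J + sm c I

/-- The sum of the weights of the blocks of `F` (`b = true`) or `¬ F` (`b = false`), without the outermost
block if that is a conjunction. -/
def wq {n : ℕ} (k : ℕ) : Fm (Finset (Fin n)) → Bool → ℕ
  | .var _, _ => 0
  | .neg A, b => wq k A (!b)
  | .imp A B, false => wq k A true + wq k B false
  | .imp A B, true => wq k A true + wq k B false + om k (sz (Fm.imp A B))

/-- The sum of the weights of the signed formulas of a list. -/
def lq {n : ℕ} (k : ℕ) (l : List (Fm (Finset (Fin n)) × Bool)) : ℕ := (l.map fun p => wq k p.1 p.2).sum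

/-- `F` has at most `M` different pieces, of total weight at most `W`. -/
def Fewq {n : ℕ} (k M W : ℕ) (F : Fm (Finset (Fin n))) : Prop :=
  (ps k F).card ≤ M ∧ ∑ P ∈ ps k F, max (wq k P true) (wq k P false) ≤ W

/-- The long atoms of `F`. -/
noncomputable def lg {n : ℕ} (k : ℕ) (F : Fm (Finset (Fin n))) : Finset (Finset (Fin n)) :=
  (fv F).filter fun S => k < S.card

/-- Truth of `F` (`b = true`) or `¬ F` (`b = false`) at a state: all values of the pieces which agree with the
pieces that are true or false at the state give `F` the value `b`. -/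
def TT {n : ℕ} (W : Finset (Fin n) → (Fin n → Bool) → Prop) (c : Finset (Fin n) → Bool) (thr : ℕ → ℕ) (k : ℕ)
    (D : Finset (Fin n)) (x : Fin n → Bool) (F : Fm (Finset (Fin n))) (b : Bool) : Prop :=
  ∀ v : Fm (Finset (Fin n)) → Bool, (∀ P ∈ ps k F, ∀ d, Tr W c k thr D x P d false → v P = d) → evp k v F = b

section cert

variable {n : ℕ} (Con : Finset (Fin n) → (Fin n → Bool) → Prop)

/-- Certificates: if `l` is true (in the sense of a world `W` contained in `Con`, with commitments `c`) at a state `U' x'` of `W` above `U x` with at most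
`K - k` variables then it is true in the sense of `Con` at a state `D y`, compatible with `U' x'` in `W`, with at most `k` variables. -/
def Crt (k0 : ℕ) (thr : ℕ → ℕ) (K k : ℕ) (U : Finset (Fin n)) (x : Fin n → Bool)
    (l : List (Fm (Finset (Fin n)) × Bool)) : Prop :=
  ∀ (W : Finset (Fin n) → (Fin n → Bool) → Prop) (c : Finset (Fin n) → Bool), Wld W K → (∀ D x, W D x → Con D x) →
    ∀ U' x', U ⊆ U' → (∀ v ∈ U, x' v = x v) → W U' x' → U'.card + k ≤ K → TrL W c k0 thr U' x' l →
      ∃ D y, D.card ≤ k ∧ (∀ v ∈ U', y v = x' v) ∧ W (U' ∪ D) y ∧ TrL Con c k0 thr D y l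

/-- `Kll q K k l w`: there are good tests of total weight at most `w` such that all states which hit them
have certificates for `l`. -/
def Kll (k0 : ℕ) (thr : ℕ → ℕ) (q K k : ℕ) (w : ℝ) (l : List (Fm (Finset (Fin n)) × Bool)) : Prop :=
  ∃ T : Finset (Tst n), (∀ t ∈ T, GT Con t) ∧ ∑ t ∈ T, wt q t ≤ w ∧
    ∀ U x, (∀ t ∈ T, Hit U x t) → Crt Con k0 thr K k U x l

/-- Certificates for lists of weight at most `C n` with at most `d` alternations. -/
def KilQ (w0 : ℕ) (sub : ℕ → ℝ → ℝ) (thr : ℕ → ℕ) (C : ℝ) (q d : ℕ) (c η : ℝ) (n : ℕ) : Prop :=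
  ∀ (Con : Finset (Fin n) → (Fin n → Bool) → Prop) (K k : ℕ), Wld Con K →
    (∀ A ν, 0 < ν → SubT Con A ν (sub A ν)) → c * n ≤ k →
    ∀ l : List (Fm (Finset (Fin n)) × Bool), (lq w0 l : ℝ) ≤ C * n → (∀ p ∈ l, alt p.1 p.2 ≤ d) →
      Kll Con w0 thr q K k (2 ^ (-η * n)) l

end cert

end Pool.H86.LP
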