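import Mathlib
import Pool.Agent.H86.LP.Defs
import Pool.Agent.H6.LE.Wgt

set_option autoImplicit false
set_option linter.unusedSectionVars false

/-!
# Module BSC (THEOREM LP): basic facts on states and truth

`Cm W c k0 F`: the world `W` respects the commitment `c` to the long atoms of `F`. `Tr.le`: from the world `Con` to a smaller world.
-/

namespace Pool.H86.LP

open Finset Classical Pool.Agent.H3.Frg Pool.Agent.H3.Frg2 Pool.Agent.H3.Frg4 Pool.Agent.H55.QT Pool.H6.LD

variable {n K k0 : ℕ} {Con W : Finset (Fin n) → (Fin n → Bool) → Prop} {c : Finset (Fin n) → Bool}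

theorem pv_congr {x y : Fin n → Bool} {S : Finset (Fin n)} (h : ∀ v ∈ S, x v = y v) : pv x S = pv y S := by
  unfold pv sm
  rw [sum_congr rfl fun v hv => by rw [h v hv]]

theorem atom_sub {F : Fm (Finset (Fin n))} : ∀ S ∈ fv F, S ⊆ fs F := by
  induction F with
  | var S =>
    intro S' hS'
    have h1 : fv (Fm.var S) = {S} := rfl
    rw [h1, mem_singleton] at hS'
    rw [hS']
    exact subset_refl _
  | neg A ih => exact ih
  | imp A B ihA ihB =>
    intro S hS
    rcases mem_fv_imp.1 hS with hS | hS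
    · exact (ihA S hS).trans subset_union_left
    · exact (ihB S hS).trans subset_union_right

theorem ev_cg {F : Fm (Finset (Fin n))} {x y : Fin n → Bool} (h : ∀ v ∈ fs F, x v = y v) :
    F.eval (pv x) = F.eval (pv y) :=
  ev_congr fun S hS => pv_congr fun v hv => h v (atom_sub S hS hv)

theorem sz_pos (F : Fm (Finset (Fin n))) : 1 ≤ sz F := by
  induction F with
  | var v => exact le_max_left _ _
  | neg A ih => exact ih
  | imp A B ihA ihB => exact ihA.trans (Nat.le_add_right _ _)

theorem fs_card (F : Fm (Finset (Fin n))) : (fs F).card ≤ sz F := by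
  induction F with
  | var v => exact le_max_right _ _
  | neg A ih => exact ih
  | imp A B ihA ihB =>
    simp only [fs, sz]
    exact (card_union_le _ _).trans (Nat.add_le_add ihA ihB)

theorem fs_l (A B : Fm (Finset (Fin n))) : fs A ⊆ fs (.imp A B) := subset_union_left

theorem fs_r (A B : Fm (Finset (Fin n))) : fs B ⊆ fs (.imp A B) := subset_union_right

theorem Lt.mono (h : Wld W K) {D D' : Finset (Fin n)} {x x' : Fin n → Bool} {F : Fm (Finset (Fin n))} {b : Bool}
    (hD : D ⊆ D') (hx : ∀ v ∈ D, x' v = x v) (hl : Lt W D x F b) : Lt W D' x' F b := by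
  intro y hy hc
  exact hl y (fun v hv => (hy v (hD hv)).trans (hx v hv))
    (h.mono _ _ _ (union_subset_union hD subset_rfl) hc)

theorem Lt.le (h : ∀ D x, W D x → Con D x) {D : Finset (Fin n)} {x : Fin n → Bool} {F : Fm (Finset (Fin n))} {b : Bool}
    (hl : Lt Con D x F b) : Lt W D x F b := fun y hy hc => hl y hy (h _ _ hc)

theorem tr_neg {thr : ℕ → ℕ} {D : Finset (Fin n)} {x : Fin n → Bool} {A : Fm (Finset (Fin n))}
    {b i : Bool} : Tr W c k0 thr D x (.neg A) b i ↔ Tr W c k0 thr D x A (!b) i := Iff.rfl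

theorem tr_vars {thr : ℕ → ℕ} {D : Finset (Fin n)} {x : Fin n → Bool} {S : Finset (Fin n)}
    {b i : Bool} (hS : S.card ≤ k0) : Tr W c k0 thr D x (.var S) b i ↔ Lt W D x (.var S) b := by
  simp only [Tr]
  rw [if_pos hS]

theorem tr_varl {thr : ℕ → ℕ} {D : Finset (Fin n)} {x : Fin n → Bool} {S : Finset (Fin n)}
    {b i : Bool} (hS : ¬ S.card ≤ k0) : Tr W c k0 thr D x (.var S) b i ↔ c S = b := by
  simp only [Tr]
  rw [if_neg hS]

theorem tr_impf {thr : ℕ → ℕ} {D : Finset (Fin n)} {x : Fin n → Bool} {A B : Fm (Finset (Fin n))}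
    {i : Bool} : Tr W c k0 thr D x (.imp A B) false i ↔
      Tr W c k0 thr D x A true false ∧ Tr W c k0 thr D x B false false := Iff.rfl

theorem tr_impt {thr : ℕ → ℕ} {D : Finset (Fin n)} {x : Fin n → Bool} {A B : Fm (Finset (Fin n))}
    {i : Bool} (hi : i = false ∧ sz (Fm.imp A B) < thr (alt (Fm.imp A B) true)) :
    Tr W c k0 thr D x (.imp A B) true i ↔ Lt W D x (.imp A B) true := by
  simp only [Tr]
  rw [if_pos hi]

theorem tr_impn {thr : ℕ → ℕ} {D : Finset (Fin n)} {x : Fin n → Bool} {A B : Fm (Finset (Fin n))}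
    {i : Bool} (hi : ¬ (i = false ∧ sz (Fm.imp A B) < thr (alt (Fm.imp A B) true))) :
    Tr W c k0 thr D x (.imp A B) true i ↔
      Tr W c k0 thr D x A false true ∨ Tr W c k0 thr D x B true true := by
  simp only [Tr]
  rw [if_neg hi]

theorem Tr.mono (h : Wld W K) {thr : ℕ → ℕ} {D D' : Finset (Fin n)} {x x' : Fin n → Bool}
    {F : Fm (Finset (Fin n))} {b i : Bool} (hD : D ⊆ D') (hx : ∀ v ∈ D, x' v = x v)
    (hl : Tr W c k0 thr D x F b i) : Tr W c k0 thr D' x' F b i := by
  induction F generalizing b i with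
  | var S =>
    by_cases hS : S.card ≤ k0
    · exact (tr_vars hS).2 (Lt.mono h hD hx ((tr_vars hS).1 hl))
    · exact (tr_varl hS).2 ((tr_varl hS).1 hl)
  | neg A ih => exact ih (tr_neg.1 hl)
  | imp A B ihA ihB =>
    cases b with
    | false =>
      obtain ⟨h1, h2⟩ := tr_impf.1 hl
      exact tr_impf.2 ⟨ihA h1, ihB h2⟩
    | true =>
      by_cases hi : i = false ∧ sz (Fm.imp A B) < thr (alt (Fm.imp A B) true)
      · exact (tr_impt hi).2 (Lt.mono h hD hx ((tr_impt hi).1 hl))
      · rcases (tr_impn hi).1 hl with h1 | h1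
        · exact (tr_impn hi).2 (Or.inl (ihA h1))
        · exact (tr_impn hi).2 (Or.inr (ihB h1))

/-- From the world `Con` to a smaller world; the commitment has to be the same only on the long atoms of `F`. -/
theorem Tr.le {c' : Finset (Fin n) → Bool} (h : ∀ D x, W D x → Con D x) {thr : ℕ → ℕ} {D : Finset (Fin n)}
    {x : Fin n → Bool} {F : Fm (Finset (Fin n))} {b i : Bool} (hc : ∀ S ∈ fv F, k0 < S.card → c' S = c S)
    (hl : Tr Con c k0 thr D x F b i) : Tr W c' k0 thr D x F b i := by
  induction F generalizing b i with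
  | var S =>
    by_cases hS : S.card ≤ k0
    · exact (tr_vars hS).2 (Lt.le h ((tr_vars hS).1 hl))
    · refine (tr_varl hS).2 ?_
      rw [hc S (mem_singleton_self S) (by omega)]
      exact (tr_varl hS).1 hl
  | neg A ih => exact ih hc (tr_neg.1 hl)
  | imp A B ihA ihB =>
    have hcA : ∀ S ∈ fv A, k0 < S.card → c' S = c S := fun S hS => hc S (mem_fv_imp.2 (Or.inl hS))
    have hcB : ∀ S ∈ fv B, k0 < S.card → c' S = c S := fun S hS => hc S (mem_fv_imp.2 (Or.inr hS))
    cases b with
    | false =>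
      obtain ⟨h1, h2⟩ := tr_impf.1 hl
      exact tr_impf.2 ⟨ihA hcA h1, ihB hcB h2⟩
    | true =>
      by_cases hi : i = false ∧ sz (Fm.imp A B) < thr (alt (Fm.imp A B) true)
      · exact (tr_impt hi).2 (Lt.le h ((tr_impt hi).1 hl))
      · rcases (tr_impn hi).1 hl with h1 | h1
        · exact (tr_impn hi).2 (Or.inl (ihA hcA h1))
        · exact (tr_impn hi).2 (Or.inr (ihB hcB h1))

/-- `W` respects the commitment to the long atoms of `F`. -/
def Cm (W : Finset (Fin n) → (Fin n → Bool) → Prop) (c : Finset (Fin n) → Bool) (k0 : ℕ) (F : Fm (Finset (Fin n))) : Prop :=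
  ∀ S ∈ fv F, k0 < S.card → ∀ D x, S ⊆ D → W D x → pv x S = c S

theorem Cm.l {A B : Fm (Finset (Fin n))} (h : Cm W c k0 (.imp A B)) : Cm W c k0 A :=
  fun S hS => h S (mem_fv_imp.2 (Or.inl hS))

theorem Cm.r {A B : Fm (Finset (Fin n))} (h : Cm W c k0 (.imp A B)) : Cm W c k0 B :=
  fun S hS => h S (mem_fv_imp.2 (Or.inr hS))

theorem pr_one (S : Finset (Fin n)) : pr {S} = S := by
  ext v
  unfold pr
  simp only [mem_filter, mem_univ, true_and, filter_singleton]
  by_cases h : v ∈ S
  · simp [h]
  · simp [h]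

theorem pv_eq {x : Fin n → Bool} {S : Finset (Fin n)} : pv x S = true ↔ sm x S = 1 := by
  unfold pv
  exact decide_eq_true_iff

theorem Cw.cm1 {G : Finset (Finset (Fin n))} (h : Cw Con W K G c) {S : Finset (Fin n)} (hS : S ∈ G) {D : Finset (Fin n)}
    {x : Fin n → Bool} (hD : S ⊆ D) (hW : W D x) : pv x S = c S := by
  have h1 := h.cm {S} (singleton_subset_iff.2 hS) D x (by rw [pr_one]; exact hD) hW
  rw [pr_one] at h1
  unfold pv
  rw [h1]
  unfold sm
  rw [sum_singleton]
  cases c S <;> simp

theorem Cw.toCm {G : Finset (Finset (Fin n))} (h : Cw Con W K G c) {F : Fm (Finset (Fin n))} (hG : lg k0 F ⊆ G) :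
    Cm W c k0 F := by
  intro S hS hk D x hD hW
  exact h.cm1 (hG (mem_filter.2 ⟨hS, hk⟩)) hD hW

theorem Tr.lt (h : Wld W K) {thr : ℕ → ℕ} {D : Finset (Fin n)} {x : Fin n → Bool}
    {F : Fm (Finset (Fin n))} {b i : Bool} (hc : Cm W c k0 F) (hl : Tr W c k0 thr D x F b i) : Lt W D x F b := by
  induction F generalizing b i with
  | var S =>
    by_cases hS : S.card ≤ k0
    · exact (tr_vars hS).1 hl
    · intro y hy hW
      have h1 : pv y S = c S := hc S (mem_singleton_self S) (by omega) _ y subset_union_right hW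
      show pv y S = b
      rw [h1]
      exact (tr_varl hS).1 hl
  | neg A ih =>
    intro y hy hW
    have h1 : A.eval (pv y) = !b := ih hc (tr_neg.1 hl) y hy hW
    simp only [Fm.eval, h1, Bool.not_not]
  | imp A B ihA ihB =>
    have hA : D ∪ fs A ⊆ D ∪ fs (Fm.imp A B) := union_subset_union subset_rfl (fs_l A B)
    have hB : D ∪ fs B ⊆ D ∪ fs (Fm.imp A B) := union_subset_union subset_rfl (fs_r A B)
    cases b with
    | false =>
      obtain ⟨h1, h2⟩ := tr_impf.1 hl
      intro y hy hW
      have h3 : A.eval (pv y) = true := ihA hc.l h1 y hy (h.mono _ _ _ hA hW)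
      have h4 : B.eval (pv y) = false := ihB hc.r h2 y hy (h.mono _ _ _ hB hW)
      simp [Fm.eval, h3, h4]
    | true =>
      by_cases hi : i = false ∧ sz (Fm.imp A B) < thr (alt (Fm.imp A B) true)
      · exact (tr_impt hi).1 hl
      · intro y hy hW
        rcases (tr_impn hi).1 hl with h1 | h1
        · have h3 : A.eval (pv y) = false := ihA hc.l h1 y hy (h.mono _ _ _ hA hW)
          simp [Fm.eval, h3]
        · have h3 : B.eval (pv y) = true := ihB hc.r h1 y hy (h.mono _ _ _ hB hW)
          simp [Fm.eval, h3]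

theorem lt_full {D : Finset (Fin n)} {x : Fin n → Bool}
    {F : Fm (Finset (Fin n))} {b : Bool} (hF : fs F ⊆ D) (he : F.eval (pv x) = b) : Lt W D x F b := by
  intro y hy _
  rw [← he]
  exact ev_cg fun v hv => hy v (hF hv)

theorem tr_full {thr : ℕ → ℕ} {D : Finset (Fin n)} {x : Fin n → Bool}
    {F : Fm (Finset (Fin n))} {b i : Bool} (hF : fs F ⊆ D) (hc : ∀ S ∈ fv F, k0 < S.card → c S = pv x S)
    (he : F.eval (pv x) = b) : Tr W c k0 thr D x F b i := by
  induction F generalizing b i with
  | var S =>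
    by_cases hS : S.card ≤ k0
    · exact (tr_vars hS).2 (lt_full hF he)
    · refine (tr_varl hS).2 ?_
      rw [hc S (mem_singleton_self S) (by omega)]
      exact he
  | neg A ih =>
    refine tr_neg.2 (ih hF hc ?_)
    rw [← he]
    simp [Fm.eval]
  | imp A B ihA ihB =>
    have hA : fs A ⊆ D := (fs_l A B).trans hF
    have hB : fs B ⊆ D := (fs_r A B).trans hF
    have hcA : ∀ S ∈ fv A, k0 < S.card → c S = pv x S := fun S hS => hc S (mem_fv_imp.2 (Or.inl hS))
    have hcB : ∀ S ∈ fv B, k0 < S.card → c S = pv x S := fun S hS => hc S (mem_fv_imp.2 (Or.inr hS))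
    cases b with
    | false =>
      simp only [Fm.eval, Bool.or_eq_false_iff, Bool.not_eq_false'] at he
      exact tr_impf.2 ⟨ihA hA hcA he.1, ihB hB hcB he.2⟩
    | true =>
      by_cases hi : i = false ∧ sz (Fm.imp A B) < thr (alt (Fm.imp A B) true)
      · exact (tr_impt hi).2 (lt_full hF he)
      · simp only [Fm.eval, Bool.or_eq_true, Bool.not_eq_true'] at he
        rcases he with h1 | h1
        · exact (tr_impn hi).2 (Or.inl (ihA hA hcA h1))
        · exact (tr_impn hi).2 (Or.inr (ihB hB hcB h1))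

/-- The total length of a list. -/
def lsz (l : List (Fm (Finset (Fin n)) × Bool)) : ℕ := (l.map fun p => sz p.1).sum

theorem lsz_append (l l' : List (Fm (Finset (Fin n)) × Bool)) : lsz (l ++ l') = lsz l + lsz l' := by
  simp [lsz]

theorem lsz_one (F : Fm (Finset (Fin n))) (b : Bool) : lsz [(F, b)] = sz F := by
  simp [lsz]

theorem cj_lsz (F : Fm (Finset (Fin n))) (b : Bool) : lsz (cj F b) = sz F := by
  induction F generalizing b with
  | var v => exact lsz_one _ _
  | neg A ih => exact ih _
  | imp A B ihA ihB =>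
    cases b with
    | false =>
      simp only [cj, lsz_append, ihA, ihB]
      rfl
    | true => exact lsz_one _ _

theorem dj_lsz (F : Fm (Finset (Fin n))) (b : Bool) : lsz (dj F b) = sz F := by
  induction F generalizing b with
  | var v => exact lsz_one _ _
  | neg A ih => exact ih _
  | imp A B ihA ihB =>
    cases b with
    | true =>
      simp only [dj, lsz_append, ihA, ihB]
      rfl
    | false => exact lsz_one _ _

theorem tr_cj {thr : ℕ → ℕ} {D : Finset (Fin n)} {x : Fin n → Bool} {F : Fm (Finset (Fin n))} {b : Bool} :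
    Tr W c k0 thr D x F b false ↔ ∀ p ∈ cj F b, Tr W c k0 thr D x p.1 p.2 false := by
  induction F generalizing b with
  | var v => simp [cj]
  | neg A ih => exact tr_neg.trans ih
  | imp A B ihA ihB =>
    cases b with
    | false =>
      rw [tr_impf, ihA, ihB]
      simp only [cj, List.forall_mem_append]
    | true => simp [cj]

theorem tr_dj {thr : ℕ → ℕ} {D : Finset (Fin n)} {x : Fin n → Bool} {F : Fm (Finset (Fin n))} {b : Bool} :
    Tr W c k0 thr D x F b true ↔ ∃ p ∈ dj F b, Tr W c k0 thr D x p.1 p.2 false := by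
  induction F generalizing b with
  | var v =>
    simp only [dj, List.mem_singleton, exists_eq_left]
    exact Iff.rfl
  | neg A ih => exact tr_neg.trans ih
  | imp A B ihA ihB =>
    cases b with
    | false =>
      simp only [dj, List.mem_singleton, exists_eq_left]
      exact Iff.rfl
    | true =>
      rw [tr_impn (by simp), ihA, ihB]
      simp only [dj, List.mem_append, or_and_right, exists_or]

/-- the atoms of the conjuncts -/
theorem cj_sub {F : Fm (Finset (Fin n))} {b : Bool} {p : Fm (Finset (Fin n)) × Bool} (h : p ∈ cj F b) :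
    fv p.1 ⊆ fv F ∧ fs p.1 ⊆ fs F ∧ sz p.1 ≤ sz F := by
  have hl : ∀ A B : Fm (Finset (Fin n)), fv A ⊆ fv (Fm.imp A B) := fun A B S hS => mem_fv_imp.2 (Or.inl hS)
  have hr : ∀ A B : Fm (Finset (Fin n)), fv B ⊆ fv (Fm.imp A B) := fun A B S hS => mem_fv_imp.2 (Or.inr hS)
  induction F generalizing b with
  | var v =>
    simp only [cj, List.mem_singleton] at h
    rw [h]
    exact ⟨subset_refl _, subset_refl _, le_rfl⟩
  | neg A ih => exact ih h
  | imp A B ihA ihB =>
    cases b with
    | false =>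
      simp only [cj, List.mem_append] at h
      rcases h with h | h
      · obtain ⟨h1, h2, h3⟩ := ihA h
        exact ⟨h1.trans (hl A B), h2.trans (fs_l A B), h3.trans (Nat.le_add_right _ _)⟩
      · obtain ⟨h1, h2, h3⟩ := ihB h
        exact ⟨h1.trans (hr A B), h2.trans (fs_r A B), h3.trans (Nat.le_add_left _ _)⟩
    | true =>
      simp only [cj, List.mem_singleton] at h
      rw [h]
      exact ⟨subset_refl _, subset_refl _, le_rfl⟩

/-- the atoms of the disjuncts -/
theorem dj_sub {F : Fm (Finset (Fin n))} {b : Bool} {p : Fm (Finset (Fin n)) × Bool} (h : p ∈ dj F b) :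
    fv p.1 ⊆ fv F ∧ fs p.1 ⊆ fs F ∧ sz p.1 ≤ sz F := by
  have h1 := cj_sub (cj_dj.1 h)
  exact h1

end Pool.H86.LP
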