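import Mathlib
import Pool.Agent.H86.LP.TopA

set_option autoImplicit false
set_option linter.unusedSectionVars false

/-!
# Module TOPC (THEOREM LP): certificates for Boolean combinations of pieces, two worlds
-/

namespace Pool.H86.LP

open Finset Classical Pool.Agent.H3.Frg Pool.Agent.H3.Frg2 Pool.Agent.H3.Frg4 Pool.Agent.H55.QT Pool.H6.LD

variable {n K k : ℕ} {Con : Finset (Fin n) → (Fin n → Bool) → Prop} {thr : ℕ → ℕ}

private theorem wt_nonneg {q : ℕ} (hq : 1 ≤ q) (t : Tst n) : 0 ≤ wt q t := by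
  unfold wt
  refine prod_nonneg fun p _ => ?_
  have h1 : (1 : ℝ) ≤ 2 * q := by
    have : (1 : ℝ) ≤ q := by exact_mod_cast hq
    linarith
  have h2 : (1 / (2 * q : ℝ)) ≤ 1 := by
    rw [div_le_one (by linarith)]
    exact h1
  have h3 : (1 / (2 * q : ℝ)) ^ p.1.card ≤ 1 := pow_le_one₀ (by positivity) h2
  linarith

private theorem sum_biU {α β : Type} [DecidableEq β] (S : Finset α) (T : α → Finset β) (f : β → ℝ)
    (hf : ∀ t, 0 ≤ f t) : ∑ t ∈ S.biUnion T, f t ≤ ∑ g ∈ S, ∑ t ∈ T g, f t := by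
  classical
  induction S using Finset.induction_on with
  | empty => simp
  | insert a S ha ih =>
    rw [biUnion_insert, sum_insert ha]
    have h1 : ∑ t ∈ T a ∪ S.biUnion T, f t ≤ ∑ t ∈ T a, f t + ∑ t ∈ S.biUnion T, f t := by
      rw [← sum_union_inter]
      have h2 : 0 ≤ ∑ t ∈ T a ∩ S.biUnion T, f t := sum_nonneg fun t _ => hf t
      linarith
    linarith

/-- the list of the pieces of `S1` (true) and `S0` (false) -/
private noncomputable def ll {V : Type} (S1 S0 : Finset (Fm V)) : List (Fm V × Bool) :=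
  S1.toList.map (fun P => (P, true)) ++ S0.toList.map (fun P => (P, false))

private theorem mem_ll {V : Type} {S1 S0 : Finset (Fm V)} {p : Fm V × Bool} :
    p ∈ ll S1 S0 ↔ (∃ P ∈ S1, p = (P, true)) ∨ ∃ P ∈ S0, p = (P, false) := by
  unfold ll
  rw [List.mem_append, List.mem_map, List.mem_map]
  simp only [Finset.mem_toList, eq_comm]

private theorem lw_ll {S1 S0 S : Finset (Fm (Finset (Fin n)))} (h1 : S1 ⊆ S) (h0 : S0 ⊆ S) {Mw : ℕ}
    (hW : ∑ P ∈ S, max (wq k P true) (wq k P false) ≤ Mw) : lq k (ll S1 S0) ≤ 2 * Mw := by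
  have e1 : lq k (ll S1 S0) = ∑ P ∈ S1, wq k P true + ∑ P ∈ S0, wq k P false := by
    unfold ll
    rw [lq_append]
    unfold lq
    rw [List.map_map, List.map_map]
    congr 1
    · rw [← Finset.sum_map_toList]
      rfl
    · rw [← Finset.sum_map_toList]
      rfl
  have e2 : ∑ P ∈ S1, wq k P true ≤ ∑ P ∈ S, max (wq k P true) (wq k P false) :=
    (sum_le_sum fun P _ => le_max_left _ _).trans (sum_le_sum_of_subset h1)
  have e3 : ∑ P ∈ S0, wq k P false ≤ ∑ P ∈ S, max (wq k P true) (wq k P false) :=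
    (sum_le_sum fun P _ => le_max_right _ _).trans (sum_le_sum_of_subset h0)
  omega

/-- truth in the large world implies truth in the small world -/
theorem TT.le {W : Finset (Fin n) → (Fin n → Bool) → Prop} {c c' : Finset (Fin n) → Bool} (h : ∀ D x, W D x → Con D x)
    {D : Finset (Fin n)} {x : Fin n → Bool} {F : Fm (Finset (Fin n))} {b : Bool} (hcc : ∀ S ∈ lg k F, c' S = c S)
    (ht : TT Con c thr k D x F b) : TT W c' thr k D x F b := by
  intro v hv
  exact ht v fun P hP d hd => hv P hP d (hd.le h fun S hS hSk => hcc S (mem_filter.2 ⟨ps_fv P hP hS, hSk⟩))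

theorem tt_kll {q kc : ℕ} (hq : 1 ≤ q) {M Mw : ℕ} {w : ℝ} (hw : 0 ≤ w)
    (hkil : ∀ l : List (Fm (Finset (Fin n)) × Bool), lq k l ≤ 2 * Mw → (∀ p ∈ l, alt p.1 p.2 ≤ k) →
      Kll Con k thr q K kc w l) {F : Fm (Finset (Fin n))} (hF : Fewq k M Mw F) (b : Bool) :
    ∃ T : Finset (Tst n), (∀ t ∈ T, GT Con t) ∧ ∑ t ∈ T, wt q t ≤ 4 ^ M * w ∧
      ∀ U x, (∀ t ∈ T, Hit U x t) → ∀ (W : Finset (Fin n) → (Fin n → Bool) → Prop) (c : Finset (Fin n) → Bool), Wld W K →
        (∀ D x, W D x → Con D x) → ∀ U' x', U ⊆ U' → (∀ v ∈ U, x' v = x v) → W U' x' →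
        U'.card + kc ≤ K → TT W c thr k U' x' F b →
        ∃ D y, D.card ≤ kc ∧ (∀ v ∈ U', y v = x' v) ∧ W (U' ∪ D) y ∧ TT Con c thr k D y F b := by
  obtain ⟨hM, hW⟩ := hF
  have h1 : ∀ S : Finset (Fm (Finset (Fin n))) × Finset (Fm (Finset (Fin n))), ∃ T : Finset (Tst n),
      S ∈ (ps k F).powerset ×ˢ (ps k F).powerset → (∀ t ∈ T, GT Con t) ∧ ∑ t ∈ T, wt q t ≤ w ∧
      ∀ U x, (∀ t ∈ T, Hit U x t) → Crt Con k thr K kc U x (ll S.1 S.2) := by
    rintro ⟨S1, S0⟩
    by_cases hS : (S1, S0) ∈ (ps k F).powerset ×ˢ (ps k F).powerset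
    · rw [mem_product, mem_powerset, mem_powerset] at hS
      obtain ⟨T, hT⟩ := hkil (ll S1 S0) (lw_ll hS.1 hS.2 hW) (by
        intro p hp
        rcases mem_ll.1 hp with ⟨P, hP, rfl⟩ | ⟨P, hP, rfl⟩
        · exact (ps_pc P (hS.1 hP)).1
        · exact (ps_pc P (hS.2 hP)).2)
      exact ⟨T, fun _ => hT⟩
    · exact ⟨∅, fun h => absurd h hS⟩
  choose T hT using h1
  refine ⟨((ps k F).powerset ×ˢ (ps k F).powerset).biUnion T, ?_, ?_, ?_⟩
  · intro t ht
    obtain ⟨S, hS, htS⟩ := mem_biUnion.1 ht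
    exact (hT S hS).1 t htS
  · refine (sum_biU _ _ _ (wt_nonneg hq)).trans ?_
    calc ∑ g ∈ (ps k F).powerset ×ˢ (ps k F).powerset, ∑ t ∈ T g, wt q t
        ≤ ∑ g ∈ (ps k F).powerset ×ˢ (ps k F).powerset, w := sum_le_sum fun g hg => (hT g hg).2.1
      _ = (4 : ℝ) ^ (ps k F).card * w := by
          rw [sum_const, card_product, card_powerset, nsmul_eq_mul]
          push_cast
          rw [← mul_pow]
          norm_num
      _ ≤ 4 ^ M * w := mul_le_mul_of_nonneg_right (pow_le_pow_right₀ (by norm_num) hM) hw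
  · intro U x hU W c hW hWC U' x' hUU hxx hc hcard hTT
    obtain ⟨S1, hS1⟩ : ∃ S1, S1 = (ps k F).filter fun P => Tr W c k thr U' x' P true false := ⟨_, rfl⟩
    obtain ⟨S0, hS0⟩ : ∃ S0, S0 = (ps k F).filter fun P => Tr W c k thr U' x' P false false := ⟨_, rfl⟩
    have hS : (S1, S0) ∈ (ps k F).powerset ×ˢ (ps k F).powerset := by
      rw [mem_product, mem_powerset, mem_powerset, hS1, hS0]
      exact ⟨filter_subset _ _, filter_subset _ _⟩
    obtain ⟨D, y, hD, hy, hcy, hTr⟩ := (hT (S1, S0) hS).2.2 U x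
      (fun t ht => hU t (mem_biUnion.2 ⟨_, hS, ht⟩)) W c hW hWC U' x' hUU hxx hc hcard (by
        intro p hp
        rcases mem_ll.1 hp with ⟨P, hP, rfl⟩ | ⟨P, hP, rfl⟩
        · have hP' : P ∈ S1 := hP
          rw [hS1, mem_filter] at hP'
          exact hP'.2
        · have hP' : P ∈ S0 := hP
          rw [hS0, mem_filter] at hP'
          exact hP'.2)
    refine ⟨D, y, hD, hy, hcy, fun v hv => hTT v fun P hP d hPc => ?_⟩
    cases d with
    | true =>
      have hP1 : P ∈ S1 := by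
        rw [hS1, mem_filter]
        exact ⟨hP, hPc⟩
      exact hv P hP true (hTr (P, true) (mem_ll.2 (Or.inl ⟨P, hP1, rfl⟩)))
    | false =>
      have hP0 : P ∈ S0 := by
        rw [hS0, mem_filter]
        exact ⟨hP, hPc⟩
      exact hv P hP false (hTr (P, false) (mem_ll.2 (Or.inr ⟨P, hP0, rfl⟩)))

end Pool.H86.LP
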