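import Mathlib
import Pool.Agent.H86.XP.Defs
import Pool.Agent.H86.LP.TopB
import Pool.Agent.H86.LP.TopC

set_option autoImplicit false
set_option linter.unusedSectionVars false

/-!
# Module COR (THEOREM LP): the deterministic theorem for abstract worlds with commitments
-/

namespace Pool.H86.LP

open Finset Classical Pool.Agent.H3.Frg Pool.Agent.H3.Frg2 Pool.Agent.H3.Frg4 Pool.Agent.H55.QT Pool.H6.LD

/-- Worlds with commitments: `Wc G c` is the world in which the sets in `G` have the parities `c`; `Gd G`: `G` is good. -/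
structure Cms {n : ℕ} (Con : Finset (Fin n) → (Fin n → Bool) → Prop) (K : ℕ) (Gd : Finset (Finset (Fin n)) → Prop)
    (Wc : Finset (Finset (Fin n)) → (Finset (Fin n) → Bool) → Finset (Fin n) → (Fin n → Bool) → Prop) : Prop where
  wld : ∀ G c D y, Gd G → Wc G c D y → Wld (Wc G c) K
  le : ∀ G c D y, Wc G c D y → Con D y
  emp : ∀ c D y, Con D y → Wc ∅ c D y
  res : ∀ G G' c c' D y, G' ⊆ G → (∀ S ∈ G', c' S = c S) → Wc G c D y → Wc G' c' D y
  cmt : ∀ G c, ∀ S ∈ G, ∀ D y, S ⊆ D → Wc G c D y → pv y S = c S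
  ext : ∀ G G' c D y, Gd G' → G ⊆ G' → D.card ≤ K → Wc G c D y → ∃ c', (∀ S ∈ G, c' S = c S) ∧ Wc G' c' D y
  real : ∀ G c D y, Wc G c D y → ∃ z, (∀ v ∈ D, z v = y v) ∧ ∀ S ∈ G, pv z S = c S

theorem Cms.cm {n K k : ℕ} {Con : Finset (Fin n) → (Fin n → Bool) → Prop} {Gd : Finset (Finset (Fin n)) → Prop}
    {Wc : Finset (Finset (Fin n)) → (Finset (Fin n) → Bool) → Finset (Fin n) → (Fin n → Bool) → Prop} (h : Cms Con K Gd Wc)
    {G : Finset (Finset (Fin n))} {c : Finset (Fin n) → Bool} {F : Fm (Finset (Fin n))} (hG : lg k F ⊆ G) :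
    Cm (Wc G c) c k F :=
  fun S hS hSk D x hD hx => h.cmt G c S (hG (mem_filter.2 ⟨hS, hSk⟩)) D x hD hx

/-- a false disjunction of disjuncts -/
private theorem djf {n k : ℕ} {W : Finset (Fin n) → (Fin n → Bool) → Prop} {c : Finset (Fin n) → Bool} {thr : ℕ → ℕ}
    {D : Finset (Fin n)} {x : Fin n → Bool} {A B : Fm (Finset (Fin n))} {a : Fm (Finset (Fin n)) × Bool}
    (hB : Tr W c k thr D x B false false) (ha : Tr W c k thr D x a.1 (!a.2) false)
    (h : ∀ p ∈ dj A true, p = a ∨ p ∈ dj B true) : Tr W c k thr D x A false false := by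
  rw [tr_cj] at hB ⊢
  intro p hp
  have h1 : (p.1, !p.2) ∈ dj A true := by
    rw [cj_dj]
    show (p.1, !!p.2) ∈ cj A (!true)
    rw [Bool.not_not]
    exact hp
  rcases h _ h1 with h2 | h2
  · rw [← h2] at ha
    dsimp only at ha
    rw [Bool.not_not] at ha
    exact ha
  · rw [cj_dj] at h2
    have h3 := hB _ h2
    dsimp only at h3
    rw [Bool.not_not] at h3
    exact h3

/-- the deterministic part for one world, with explicit budgets -/
theorem core3 {n K : ℕ} {Con : Finset (Fin n) → (Fin n → Bool) → Prop} (h : Wld Con K)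
    {Gd : Finset (Finset (Fin n)) → Prop}
    {Wc : Finset (Finset (Fin n)) → (Finset (Fin n) → Bool) → Finset (Fin n) → (Fin n → Bool) → Prop} (hX : Cms Con K Gd Wc)
    {thr : ℕ → ℕ} (hmono : Monotone thr) (h0 : 2 ≤ thr 0) {k k0 kU kc kd M Mw : ℕ} (hkw : k < thr 0)
    {θ w : ℝ} {q : ℕ}
    (hθ : ∑ i ∈ range k, (thr i : ℝ) / (Nat.log 2 (thr (i + 1)) : ℝ) ^ 2 ≤ θ) (hθ0 : 0 ≤ θ)
    (hkd : θ * Mw + M * thr k ≤ kd) (hT : thr k ≤ kd)
    (hq : 1 ≤ q) (hw : 0 ≤ w) (hall : HitAll Con q kU)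
    (hkil : ∀ l : List (Fm (Finset (Fin n)) × Bool), lq k l ≤ 2 * Mw → (∀ p ∈ l, alt p.1 p.2 ≤ k) →
      Kll Con k thr q K kc w l)
    (hb : kU + kc + (kd + thr k) + 3 * k0 * kd + k0 + kc ≤ K)
    {Γ : Set (Fm (Finset (Fin n)))} (hΓ : ∀ F ∈ Γ, (sz F ≤ k0 ∧ ∀ y, Con (fs F) y → F.eval (pv y) = true) ∨
      (F.leaves ≤ k0 ∧ ∀ z : Fin n → Bool, F.eval (pv z) = true))
    {Sch : Set (Fm ℕ)} (hS : ∀ ψ ∈ Sch, ψ.len ≤ k0 ∧ ∀ x : ℕ → Bool, ψ.eval x = true)
    {N : ℕ} {pf : Fin N → Fm (Finset (Fin n))} (hpf : Pool.H86.XP.DerX k Sch Γ pf)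
    (hc : (∃ i j, pf i = Fm.neg (pf j)) ∨ ∃ i, (pf i).leaves ≤ k0 ∧ ∀ z : Fin n → Bool, (pf i).eval (pv z) = false)
    (hd : ∀ i, Fewq k M Mw (pf i)) (hG : ∀ i j l, Gd (lg k (pf i) ∪ lg k (pf j) ∪ lg k (pf l))) :
    1 / 2 ≤ N * (4 ^ M * w) := by
  by_contra hlt
  push Not at hlt
  have hG1 : ∀ i, Gd (lg k (pf i)) := fun i => by
    have h1 := hG i i i
    rwa [union_self, union_self] at h1
  have hkk : k ≤ thr k := hkw.le.trans (hmono (Nat.zero_le k))
  have hK : ∀ i, ∃ T : Finset (Tst n), (∀ t ∈ T, GT Con t) ∧ ∑ t ∈ T, wt q t ≤ 4 ^ M * w ∧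
      ∀ U x, (∀ t ∈ T, Hit U x t) → ∀ (W : Finset (Fin n) → (Fin n → Bool) → Prop) (c : Finset (Fin n) → Bool), Wld W K →
        (∀ D x, W D x → Con D x) → ∀ U' x', U ⊆ U' → (∀ v ∈ U, x' v = x v) → W U' x' →
        U'.card + kc ≤ K → TT W c thr k U' x' (pf i) false →
        ∃ D y, D.card ≤ kc ∧ (∀ v ∈ U', y v = x' v) ∧ W (U' ∪ D) y ∧ TT Con c thr k D y (pf i) false :=
    fun i => tt_kll hq hw hkil (hd i) false
  choose T hT1 hT2 hT3 using hK
  have hw0 : ∀ t : Tst n, 0 ≤ wt q t := by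
    intro t
    unfold wt
    refine prod_nonneg fun p _ => ?_
    have h1 : (1 : ℝ) ≤ 2 * q := by
      have : (1 : ℝ) ≤ q := by exact_mod_cast hq
      linarith
    have h2 : (1 / (2 * q : ℝ)) ^ p.1.card ≤ 1 :=
      pow_le_one₀ (by positivity) ((div_le_one (by linarith)).2 h1)
    linarith
  obtain ⟨U, x, hU, hx, hhit⟩ := hall ((univ : Finset (Fin N)).biUnion T) (by
    intro t ht
    obtain ⟨i, _, hi⟩ := mem_biUnion.1 ht
    exact hT1 i t hi) (by
    refine lt_of_le_of_lt ?_ hlt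
    have h1 : ∀ S : Finset (Fin N), ∑ t ∈ S.biUnion T, wt q t ≤ ∑ i ∈ S, ∑ t ∈ T i, wt q t := by
      intro S
      induction S using Finset.induction_on with
      | empty => simp
      | insert a S ha ih =>
        rw [biUnion_insert, sum_insert ha]
        have h7 := sum_union_inter (s₁ := T a) (s₂ := S.biUnion T) (f := wt q)
        have h8 : 0 ≤ ∑ t ∈ T a ∩ S.biUnion T, wt q t := sum_nonneg fun t _ => hw0 t
        linarith
    refine (h1 univ).trans ((sum_le_sum fun i _ => hT2 i).trans ?_)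
    rw [sum_const, card_univ, Fintype.card_fin, nsmul_eq_mul])
  have hC := fun i => hT3 i U x fun t ht => hhit t (mem_biUnion.2 ⟨i, mem_univ _, ht⟩)
  -- false lines
  let Fls : Fin N → Prop := fun i => ∃ G c D y, lg k (pf i) ⊆ G ∧ Gd G ∧ U ⊆ D ∧ (∀ v ∈ U, y v = x v) ∧ Wc G c D y ∧
    D.card ≤ kU + kc + (kd + thr k) ∧ TT (Wc G c) c thr k D y (pf i) false
  have hex : ∃ i, Fls i := by
    rcases hc with ⟨i, j, hij⟩ | ⟨i, hl, hv⟩
    · obtain ⟨c, _, hcU⟩ := hX.ext ∅ (lg k (pf j)) (fun _ => true) U x (hG1 j) (empty_subset _) (by omega) (hX.emp _ U x hx)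
      have hWj := hX.wld _ _ _ _ (hG1 j) hcU
      have hlij : lg k (pf i) ⊆ lg k (pf j) := by
        rw [hij]
        exact subset_refl _
      obtain ⟨D', y, h1, h2, h3, h4, h5⟩ := tt_dec hWj hmono h0 hkw hθ hθ0 hkd
        (hX.cm (subset_refl _)) (hd j) (D := U) (x := x) (by omega) hcU
      rcases h5 with h5 | h5
      · refine ⟨i, _, c, D', y, hlij, hG1 j, h1, h3, h4, by omega, ?_⟩
        rw [hij]
        exact tt_neg.2 h5
      · exact ⟨j, _, c, D', y, subset_refl _, hG1 j, h1, h3, h4, by omega, h5⟩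
    · -- an unsatisfiable line with few atoms
      have hk01 : 1 ≤ k0 := (leaves_pos (pf i)).trans hl
      obtain ⟨c, _, hcU⟩ := hX.ext ∅ (lg k (pf i)) (fun _ => true) U x (hG1 i) (empty_subset _) (by omega) (hX.emp _ U x hx)
      have hWi := hX.wld _ _ _ _ (hG1 i) hcU
      by_contra hno
      push Not at hno
      refine absurd ?_ (hno i)
      obtain ⟨D', y, h1, h2, h3, h4, h5⟩ := tt_dec hWi hmono h0 hkw hθ hθ0 hkd
        (hX.cm (subset_refl _)) (hd i) (D := U) (x := x) (by omega) hcU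
      rcases h5 with h5 | h5
      · exfalso
        have h6 : TT (Wc (lg k (pf i)) c) c thr k D' y (.neg (pf i)) false := tt_neg.2 h5
        refine tt_val hWi hmono h0 hkw hT (F := .neg (pf i)) (hX.cm (subset_refl _)) hl (by omega) h4 (hX.real _ _) ?_ h6
        intro z
        show (!(pf i).eval (pv z)) = true
        rw [hv z]
        rfl
      · exact ⟨_, c, D', y, subset_refl _, hG1 i, h1, h3, h4, by omega, h5⟩
  obtain ⟨l, hl, hmin⟩ : ∃ l, Fls l ∧ ∀ i, i < l → ¬ Fls i := by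
    obtain ⟨i, hi⟩ := hex
    have hne : (univ.filter fun i => Fls i).Nonempty := ⟨i, mem_filter.2 ⟨mem_univ _, hi⟩⟩
    refine ⟨(univ.filter fun i => Fls i).min' hne, (mem_filter.1 (min'_mem _ hne)).2, ?_⟩
    intro i hi hF
    have := min'_le (univ.filter fun i => Fls i) i (mem_filter.2 ⟨mem_univ _, hF⟩)
    exact absurd hi (not_lt.2 this)
  obtain ⟨G1, c, D1, y1, hG1l, hGd1, hUD1, hy1, hc1, hcard1, htr1⟩ := hl
  have hW1 := hX.wld _ _ _ _ hGd1 hc1
  obtain ⟨D, y, hDk, hyy, hcy, htr2⟩ := hC l (Wc G1 c) c hW1 (hX.le G1 c) D1 y1 hUD1 hy1 hc1 (by omega) htr1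
  have hcD : Wc (lg k (pf l)) c (U ∪ D) y := hX.res G1 _ c c _ _ hG1l (fun _ _ => rfl)
    (hW1.mono _ _ _ (union_subset_union hUD1 subset_rfl) hcy)
  have hyU : ∀ v ∈ U, y v = x v := fun v hv => (hyy v (hUD1 hv)).trans (hy1 v hv)
  have htrD : TT Con c thr k (U ∪ D) y (pf l) false :=
    tt_mono h subset_union_right (fun _ _ => rfl) htr2
  have hcard : (U ∪ D).card ≤ kU + kc := (card_union_le _ _).trans (by omega)
  have hWl := hX.wld _ _ _ _ (hG1 l) hcD
  have htrW : TT (Wc (lg k (pf l)) c) c thr k (U ∪ D) y (pf l) false := htrD.le (hX.le _ _) fun _ _ => rfl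
  have hcml : Cm (Wc (lg k (pf l)) c) c k (pf l) := hX.cm (subset_refl _)
  rcases hpf l with h1 | ⟨ψ, hψ, σ, h1⟩ | ⟨j, k', hj, hk, h1⟩ | ⟨j, k', hj, hk, hpj, hpk, hpl, S, hSj, hSk⟩
  · rcases hΓ _ h1 with ⟨h2, h3⟩ | ⟨h2, h3⟩
    · exact tt_cl hWl hcml (fun y hy => h3 y (hX.le _ _ _ _ hy)) (by omega) hcD htrW
    · exact tt_val hWl hmono h0 hkw hT hcml h2 (by omega) hcD (hX.real _ _) h3 htrW
  · have hd1 := hd l
    have hcm2 := hcml
    rw [h1] at hd1
    have hcm3 : Cm (Wc (lg k (pf l)) c) c k (ψ.bind σ) := by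
      rw [← h1]
      exact hcml
    have htr3 : TT (Wc (lg k (pf l)) c) c thr k (U ∪ D) y (ψ.bind σ) false := by
      rw [← h1]
      exact htrW
    exact tt_ax hWl hmono h0 hkw hθ hθ0 hkd hT (hS ψ hψ).1 (hS ψ hψ).2 hcm3 hd1 (by omega) hcD htr3
  · -- modus ponens
    have hlk : lg k (pf l) ⊆ lg k (pf k') := by
      rw [h1]
      exact (lg_imp _ _).2
    have hlj : lg k (pf j) ⊆ lg k (pf k') := by
      rw [h1]
      exact (lg_imp _ _).1
    obtain ⟨c', hc', hcD'⟩ := hX.ext _ _ c (U ∪ D) y (hG1 k') hlk (by omega) hcD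
    have hWk := hX.wld _ _ _ _ (hG1 k') hcD'
    have hcmk : Cm (Wc (lg k (pf k')) c') c' k (.imp (pf j) (pf l)) := by
      rw [← h1]
      exact hX.cm (subset_refl _)
    obtain ⟨D', y', h2, h3, h4, h5, h6⟩ := tt_mp hWk hmono h0 hkw hθ hθ0 hkd hcmk (hd j)
      (D := U ∪ D) (x := y) (by omega) hcD' (htrD.le (hX.le _ _) hc')
    have h7 : U ⊆ D' := subset_union_left.trans h2
    have h8 : ∀ v ∈ U, y' v = x v := fun v hv => (h4 v (mem_union_left _ hv)).trans (hyU v hv)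
    rcases h6 with h6 | h6
    · exact hmin j hj ⟨_, c', D', y', hlj, hG1 k', h7, h8, h5, by omega, h6⟩
    · refine hmin k' hk ⟨_, c', D', y', subset_refl _, hG1 k', h7, h8, h5, by omega, ?_⟩
      have h9 := h6
      rw [← h1] at h9
      exact h9
  · -- resolution on the atom `S`, weakening
    obtain ⟨G', hG'⟩ : ∃ G', G' = lg k (pf j) ∪ lg k (pf k') ∪ lg k (pf l) := ⟨_, rfl⟩
    have hGG : Gd G' := by
      rw [hG']
      exact hG j k' l
    have hGl : lg k (pf l) ⊆ G' := by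
      rw [hG']
      exact subset_union_right
    have hGj : lg k (pf j) ⊆ G' := by
      rw [hG']
      exact subset_union_left.trans subset_union_left
    have hGk : lg k (pf k') ⊆ G' := by
      rw [hG']
      exact subset_union_right.trans subset_union_left
    obtain ⟨c', hc', hcD'⟩ := hX.ext _ G' c (U ∪ D) y hGG hGl (by omega) hcD
    have hWG := hX.wld _ _ _ _ hGG hcD'
    have hTl : Tr (Wc G' c') c' k thr (U ∪ D) y (pf l) false false :=
      ((tt_piece hpl).1 htrD).le (hX.le _ _) fun S hS hSk => hc' S (mem_filter.2 ⟨hS, hSk⟩)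
    obtain ⟨D', y', b, g1, g2, g3, g4, g5⟩ : ∃ D' y' b, U ∪ D ⊆ D' ∧ D'.card ≤ (U ∪ D).card + thr k ∧
        (∀ v ∈ U ∪ D, y' v = y v) ∧ Wc G' c' D' y' ∧ Tr (Wc G' c') c' k thr D' y' (.var S) b false := by
      by_cases hSk : S.card ≤ k
      · have h3 := card_union_le (U ∪ D) S
        obtain ⟨y', h4, h5⟩ := hWG.extS (S := S) (by omega) hcD'
        exact ⟨U ∪ D ∪ S, y', pv y' S, subset_union_left, by omega, h4, h5,
          (tr_vars hSk).2 (lt_full subset_union_right rfl)⟩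
      · exact ⟨U ∪ D, y, c' S, subset_refl _, by omega, fun _ _ => rfl, hcD', (tr_varl hSk).2 rfl⟩
    have hTl' : Tr (Wc G' c') c' k thr D' y' (pf l) false false := Tr.mono hWG g1 g3 hTl
    have h7 : U ⊆ D' := subset_union_left.trans g1
    have h8 : ∀ v ∈ U, y' v = x v := fun v hv => (g3 v (mem_union_left _ hv)).trans (hyU v hv)
    cases b with
    | false =>
      exact hmin j hj ⟨G', c', D', y', hGj, hGG, h7, h8, g4, by omega, (tt_piece hpj).2 (djf hTl' g5 hSj)⟩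
    | true =>
      exact hmin k' hk ⟨G', c', D', y', hGk, hGG, h7, h8, g4, by omega, (tt_piece hpk).2 (djf hTl' g5 hSk)⟩

end Pool.H86.LP
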