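import Mathlib
import Pool.Agent.H86.XP.Bsc
import Pool.Agent.H86.LP.Det

set_option autoImplicit false
set_option linter.unusedSectionVars false

/-!
# Module DEX (THEOREM LP): the deterministic theorem with the definitions of `Pool/Agent/H86/XP/Defs.lean`
-/

namespace Pool.H86.LP

open Finset Classical Pool.Agent.H3.Frg Pool.Agent.H3.Frg2 Pool.Agent.H3.Frg4 Pool.Agent.H55.QT Pool.H6.LD

variable {n : ℕ}

theorem pv_px : (pv : (Fin n → Bool) → Finset (Fin n) → Bool) = Pool.H86.XP.px := by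
  funext x S
  have h1 := Pool.H86.XP.px_sm x S
  unfold pv
  cases h2 : Pool.H86.XP.px x S
  · rw [h2] at h1
    refine decide_eq_false ?_
    rw [h1]
    simp
  · rw [h2] at h1
    exact decide_eq_true (by simpa using h1)

theorem sz_lx (F : Fm (Finset (Fin n))) : sz F = Pool.H86.XP.lx F := by
  induction F with
  | var S => rfl
  | neg A ih => exact ih
  | imp A B ihA ihB =>
    show sz A + sz B = Pool.H86.XP.lx A + Pool.H86.XP.lx B
    rw [ihA, ihB]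

theorem fs_vx (F : Fm (Finset (Fin n))) : fs F = Pool.H86.XP.vx F := by
  induction F with
  | var S => rfl
  | neg A ih => exact ih
  | imp A B ihA ihB =>
    show fs A ∪ fs B = Pool.H86.XP.vx A ∪ Pool.H86.XP.vx B
    rw [ihA, ihB]

theorem wq_wx (k : ℕ) (F : Fm (Finset (Fin n))) (b : Bool) : wq k F b = Pool.H86.XP.wx k F b := by
  induction F generalizing b with
  | var S => rfl
  | neg A ih => exact ih (!b)
  | imp A B ihA ihB =>
    cases b with
    | false =>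
      show wq k A true + wq k B false = Pool.H86.XP.wx k A true + Pool.H86.XP.wx k B false
      rw [ihA, ihB]
    | true =>
      show wq k A true + wq k B false + om k (sz (Fm.imp A B)) =
        Pool.H86.XP.wx k A true + Pool.H86.XP.wx k B false + om k (Pool.H86.XP.lx (Fm.imp A B))
      rw [ihA, ihB, sz_lx]

theorem fewq_fwx {k M W : ℕ} {F : Fm (Finset (Fin n))} : Fewq k M W F ↔ Pool.H86.XP.Fwx k M W F := by
  unfold Fewq Pool.H86.XP.Fwx
  simp only [wq_wx]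

theorem fv_ax (F : Fm (Finset (Fin n))) (S : Finset (Fin n)) : S ∈ fv F ↔ S ∈ Pool.H86.XP.ax F := by
  induction F with
  | var T =>
    show S ∈ ({T} : Finset _) ↔ S ∈ ({T} : Finset _)
    exact Iff.rfl
  | neg A ih => exact ih
  | imp A B ihA ihB =>
    show _ ↔ S ∈ Pool.H86.XP.ax A ∪ Pool.H86.XP.ax B
    rw [mem_fv_imp, mem_union, ihA, ihB]

theorem lg_lg (k : ℕ) (F : Fm (Finset (Fin n))) : lg k F = Pool.H86.XP.lg k F := by
  ext S
  unfold lg Pool.H86.XP.lg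
  rw [mem_filter, mem_filter, fv_ax]

theorem cms_cms {K : ℕ} {Con : Finset (Fin n) → (Fin n → Bool) → Prop} {Gd : Finset (Finset (Fin n)) → Prop}
    {Wc : Finset (Finset (Fin n)) → (Finset (Fin n) → Bool) → Finset (Fin n) → (Fin n → Bool) → Prop}
    (h : Pool.H86.XP.Cms Con K Gd Wc) : Cms Con K Gd Wc where
  wld := h.wld
  le := h.le
  emp := h.emp
  res := h.res
  cmt := by
    intro G c S hS D y hD hy
    rw [pv_px]
    exact h.cmt G c S hS D y hD hy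
  ext := h.ext
  real := by
    rw [pv_px]
    exact h.real

theorem detx {sub : ℕ → ℝ → ℝ} (hsub : ∀ A ν, 0 < ν → 0 < sub A ν) {κ : ℝ} (hκ : 0 < κ) (k k0 : ℕ) :
    ∃ T : ℕ, 0 < T ∧ ∀ (n m r K : ℕ) (B : Fin m → Finset (Fin n))
      (b : Fin m → Bool), (∀ I : Finset (Fin m), I.card ≤ r → I.card ≤ 4 * (par B I).card) →
      κ * n ≤ K → 8 * K ≤ r → (∀ A ν, 0 < ν → SubT (XCon B b r) A ν (sub A ν)) →
      ∀ (Gd : Finset (Finset (Fin n)) → Prop)
        (Wc : Finset (Finset (Fin n)) → (Finset (Fin n) → Bool) → Pool.H86.XP.Wd n),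
      Pool.H86.XP.Cms (XCon B b r) K Gd Wc →
      ∀ Γ : Set (Pool.H86.XP.Fx n), (∀ F ∈ Γ, (Pool.H86.XP.lx F ≤ k0 ∧ ∀ y, XCon B b r (Pool.H86.XP.vx F) y → F.eval (Pool.H86.XP.px y) = true) ∨
        (F.leaves ≤ k0 ∧ ∀ z : Fin n → Bool, F.eval (Pool.H86.XP.px z) = true)) →
      ∀ Sch : Set (Fm ℕ), (∀ ψ ∈ Sch, ψ.len ≤ k0 ∧ ∀ x : ℕ → Bool, ψ.eval x = true) →
      ∀ (N : ℕ) (pf : Fin N → Pool.H86.XP.Fx n), Pool.H86.XP.DerX k Sch Γ pf →
      ((∃ i j, pf i = Fm.neg (pf j)) ∨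
        2 ≤ N ∧ ∃ i, (pf i).leaves ≤ k0 ∧ ∀ z : Fin n → Bool, (pf i).eval (Pool.H86.XP.px z) = false) →
      (∀ i, Pool.H86.XP.Fwx k (n / T) (k * n) (pf i)) →
      (∀ i j l, Gd (Pool.H86.XP.lg k (pf i) ∪ Pool.H86.XP.lg k (pf j) ∪ Pool.H86.XP.lg k (pf l))) →
      (2 : ℝ) ^ ((n : ℝ) / T) ≤ N := by
  obtain ⟨T, hT, h⟩ := det4 hsub hκ k k0
  refine ⟨T, hT, fun n m r K B b h1 h2 h3 h4 Gd Wc h5 Γ h7 Sch h8 N pf h9 h10 h11 h12 => ?_⟩
  refine h n m r K B b h1 h2 h3 h4 Gd Wc (cms_cms h5) Γ ?_ Sch h8 N pf h9 ?_ (fun i => fewq_fwx.2 (h11 i)) ?_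
  · simp only [pv_px, sz_lx, fs_vx]
    exact h7
  · rw [pv_px]
    exact h10
  · intro i j l
    rw [lg_lg, lg_lg, lg_lg]
    exact h12 i j l

end Pool.H86.LP
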